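import Mathlib

namespace Pool.Agent.H.MP_fce458_co

/-- The blowup `K_6[n]`: vertices are pairs (part, index), adjacent iff the parts differ. -/
def blowup (n : ℕ) : SimpleGraph (Fin 6 × Fin n) where
  Adj x y := x.1 ≠ y.1
  symm := ⟨fun _ _ h => h.symm⟩
  loopless := ⟨fun _ h => h rfl⟩

/-- All edges between the set `A` in part `a` and the set `B` in part `b` have colour `k`. -/
def MonoPair {n : ℕ} (col : (blowup n).edgeSet → Bool) (k : Bool) (a b : Fin 6) (hab : a ≠ b)
    (A B : Finset (Fin n)) : Prop :=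
  ∀ x ∈ A, ∀ y ∈ B, col ⟨s((a, x), (b, y)), hab⟩ = k

/-- Every 2-colouring of the edges of `K_6[n]` has a canonical monochromatic copy of `K_3[t]`. -/
def Arrows (n t : ℕ) : Prop :=
  ∀ col : (blowup n).edgeSet → Bool, ∃ (a b c : Fin 6) (hab : a ≠ b) (hac : a ≠ c) (hbc : b ≠ c)
    (A B C : Finset (Fin n)) (k : Bool), A.card = t ∧ B.card = t ∧ C.card = t ∧
      MonoPair col k a b hab A B ∧ MonoPair col k a c hac A C ∧ MonoPair col k b c hbc B C

end Pool.Agent.H.MP_fce458_co
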