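import Mathlib

namespace Pool.Agent.H.MP_fce458_co
open Finset Fintype

open scoped Classical

variable {V β γ : Type*} {t : ℕ}

noncomputable def nb (r : V → β → Prop) (X : Finset β) (c : Fin t → V) : ℝ :=
  (X.filter (fun x => ∀ i, r (c i) x)).card

noncomputable def dg (r : V → β → Prop) (D : Finset V) (x : β) : ℕ :=
  (D.filter (fun v => r v x)).card

def Dens (r : V → β → Prop) (D : Finset V) (X : Finset β) (p : ℝ) : Prop :=
  ∀ v ∈ D, p * X.card ≤ (X.filter (fun x => r v x)).card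

lemma nb_nonneg (r : V → β → Prop) (X : Finset β) (c : Fin t → V) : 0 ≤ nb r X c :=
  Nat.cast_nonneg _

lemma filter_pi (r : V → β → Prop) (D : Finset V) (x : β) :
    (piFinset (fun _ : Fin t => D)).filter (fun c => ∀ i, r (c i) x)
      = piFinset (fun _ : Fin t => D.filter (fun v => r v x)) := by
  ext c; simp only [mem_filter, mem_piFinset]
  exact ⟨fun h i => ⟨h.1 i, h.2 i⟩, fun h => ⟨fun i => (h i).1, fun i => (h i).2⟩⟩

lemma sum_swap (r : V → β → Prop) (X : Finset β) (S : Finset (Fin t → V)) (f : (Fin t → V) → ℝ) :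
    ∑ c ∈ S, f c * nb r X c = ∑ x ∈ X, ∑ c ∈ S.filter (fun c => ∀ i, r (c i) x), f c := by
  simp only [nb, card_filter, sum_filter]
  push_cast
  simp only [mul_sum]
  rw [sum_comm]
  refine sum_congr rfl fun x _ => sum_congr rfl fun c _ => ?_
  split_ifs <;> simp

lemma sum_nb (r : V → β → Prop) (X : Finset β) (D : Finset V) :
    ∑ c ∈ piFinset (fun _ : Fin t => D), nb r X c = ∑ x ∈ X, (dg r D x : ℝ) ^ t := by
  have := sum_swap r X (piFinset (fun _ : Fin t => D)) (fun _ => 1)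
  simp only [one_mul] at this
  rw [this]
  refine sum_congr rfl fun x _ => ?_
  rw [filter_pi]; simp [dg]

lemma sum_dg {r : V → β → Prop} {D : Finset V} {X : Finset β} {p : ℝ} (h : Dens r D X p) :
    p * D.card * X.card ≤ ∑ x ∈ X, (dg r D x : ℝ) := by
  have : ∑ x ∈ X, (dg r D x : ℝ) = ∑ v ∈ D, ((X.filter (fun x => r v x)).card : ℝ) := by
    simp only [dg, card_filter]
    push_cast
    exact sum_comm
  rw [this]
  have := sum_le_sum h
  rw [sum_const, nsmul_eq_mul] at this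
  linarith

lemma cheb {X : Finset β} {d : β → ℝ} (hd : ∀ x, 0 ≤ d x) {a : ℝ} (ha : 0 ≤ a)
    (h : a * X.card ≤ ∑ x ∈ X, d x) (k : ℕ) : a * ∑ x ∈ X, d x ^ k ≤ ∑ x ∈ X, d x ^ (k + 1) := by
  have h1 : ∑ x ∈ X, (a * d x ^ k + a ^ k * (d x - a)) ≤ ∑ x ∈ X, d x ^ (k + 1) := by
    refine sum_le_sum fun x _ => ?_
    have : 0 ≤ (d x - a) * (d x ^ k - a ^ k) := by
      rcases le_total a (d x) with c | c
      · exact mul_nonneg (by linarith) (sub_nonneg.2 (pow_le_pow_left₀ ha c k))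
      · exact mul_nonneg_of_nonpos_of_nonpos (by linarith)
          (sub_nonpos.2 (pow_le_pow_left₀ (hd x) c k))
    rw [pow_succ]; nlinarith
  rw [sum_add_distrib, ← mul_sum, ← mul_sum, sum_sub_distrib, sum_const, nsmul_eq_mul] at h1
  have : 0 ≤ a ^ k * (∑ x ∈ X, d x - X.card * a) := mul_nonneg (by positivity) (by linarith)
  linarith

lemma jen {X : Finset β} {d : β → ℝ} (hd : ∀ x, 0 ≤ d x) {a : ℝ} (ha : 0 ≤ a)
    (h : a * X.card ≤ ∑ x ∈ X, d x) (k : ℕ) : a ^ k * X.card ≤ ∑ x ∈ X, d x ^ k := by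
  induction k with
  | zero => simp
  | succ k ih =>
    refine le_trans ?_ (cheb hd ha h k)
    rw [pow_succ', mul_assoc]
    exact mul_le_mul_of_nonneg_left ih ha

lemma mixed {r : V → β → Prop} {D : Finset V} {X : Finset β} {p : ℝ} (hp : 0 ≤ p)
    (h : Dens r D X p) (r' : V → γ → Prop) (Y : Finset γ) :
    p ^ t * X.card * ∑ c ∈ piFinset (fun _ : Fin t => D), nb r' Y c
      ≤ ∑ c ∈ piFinset (fun _ : Fin t => D), nb r X c * nb r' Y c := by
  rw [sum_swap, sum_nb, mul_sum]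
  refine sum_le_sum fun y _ => ?_
  rw [filter_pi, sum_nb]
  have h' : Dens r (D.filter (fun v => r' v y)) X p := fun v hv => h v (mem_filter.1 hv).1
  have := jen (fun x => Nat.cast_nonneg _) (by positivity) (sum_dg h') t
  rw [mul_pow] at this
  unfold dg at *
  linarith

lemma nb_prod (r : V → β → Prop) (r' : V → γ → Prop) (X : Finset β) (Y : Finset γ)
    (c : Fin t → V) :
    nb (fun v (z : β × γ) => r v z.1 ∧ r' v z.2) (X ×ˢ Y) c = nb r X c * nb r' Y c := by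
  unfold nb
  rw [← Nat.cast_mul, ← card_product]
  congr 2
  ext z; simp only [mem_filter, mem_product, forall_and]; tauto

lemma Dens.prod {r : V → β → Prop} {r' : V → γ → Prop} {D : Finset V} {X : Finset β}
    {Y : Finset γ} {p q : ℝ} (hq : 0 ≤ q) (h : Dens r D X p) (h' : Dens r' D Y q) :
    Dens (fun v (z : β × γ) => r v z.1 ∧ r' v z.2) D (X ×ˢ Y) (p * q) := by
  intro v hv
  have e : (X ×ˢ Y).filter (fun z => r v z.1 ∧ r' v z.2)
      = X.filter (fun x => r v x) ×ˢ Y.filter (fun y => r' v y) := by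
    ext z; simp only [mem_filter, mem_product]; tauto
  have := mul_le_mul (h v hv) (h' v hv) (by positivity) (by positivity)
  rw [← Nat.cast_mul, ← card_product, ← e] at this
  rw [card_product]
  refine le_trans (le_of_eq (by push_cast; ring)) (this.trans (le_of_eq ?_))
  congr

lemma desc_ge (d k : ℕ) :
    (d : ℝ) ^ (k + 1) - ((k + 1 : ℕ) : ℝ) ^ 2 * (d : ℝ) ^ k ≤ d.descFactorial (k + 1) := by
  rcases Nat.lt_or_ge d (k + 1) with h | h
  · have h1 : (d : ℝ) ≤ ((k + 1 : ℕ) : ℝ) ^ 2 := by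
      have : d ≤ (k + 1) ^ 2 := by nlinarith
      exact_mod_cast this
    have := mul_le_mul_of_nonneg_right h1 (show (0 : ℝ) ≤ (d : ℝ) ^ k by positivity)
    have h2 : (0 : ℝ) ≤ d.descFactorial (k + 1) := Nat.cast_nonneg _
    rw [pow_succ']; linarith
  · have h1 : (d - (k + 1)) ^ (k + 1) ≤ d.descFactorial (k + 1) :=
      (Nat.pow_le_pow_left (by omega) _).trans (Nat.pow_sub_le_descFactorial d (k + 1))
    have h2 : ((d : ℝ) - (k + 1 : ℕ)) ^ (k + 1) ≤ d.descFactorial (k + 1) := by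
      rw [← Nat.cast_sub h]; exact_mod_cast h1
    refine le_trans ?_ h2
    have d0 : (0 : ℝ) < d := by exact_mod_cast (by omega : 0 < d)
    have h3 : ((k + 1 : ℕ) : ℝ) ≤ d := by exact_mod_cast h
    have h4 := one_add_mul_le_pow (a := -(((k + 1 : ℕ) : ℝ) / d)) (by
      have : ((k + 1 : ℕ) : ℝ) / d ≤ 1 := by rw [div_le_one d0]; exact h3
      linarith) (k + 1)
    have h5 := mul_le_mul_of_nonneg_right h4 (show (0 : ℝ) ≤ (d : ℝ) ^ (k + 1) by positivity)
    rw [← mul_pow] at h5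
    convert h5 using 1
    · field_simp; ring
    · congr 1; field_simp; ring

lemma sum_inj (r : V → β → Prop) (X : Finset β) (D : Finset V) :
    ∑ x ∈ X, ((dg r D x).descFactorial t : ℝ)
      ≤ ∑ c ∈ (piFinset (fun _ : Fin t => D)).filter Function.Injective, nb r X c := by
  have := sum_swap r X ((piFinset (fun _ : Fin t => D)).filter Function.Injective) (fun _ => 1)
  simp only [one_mul] at this
  rw [this]
  refine sum_le_sum fun x _ => ?_
  rw [sum_const, nsmul_eq_mul, mul_one, Nat.cast_le]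
  have e : (dg r D x).descFactorial t
      = (univ : Finset (Fin t ↪ (D.filter (fun v => r v x)))).card := by
    rw [card_univ, Fintype.card_embedding_eq, Fintype.card_coe, Fintype.card_fin]; rfl
  rw [e]
  refine card_le_card_of_injOn (fun f i => (f i).1) (fun f _ => ?_) (fun f _ g _ h => ?_)
  · simp only [coe_filter, mem_filter, mem_piFinset, Set.mem_setOf_eq]
    exact ⟨⟨fun i => (mem_filter.1 (f i).2).1, fun i j h => f.injective (Subtype.ext h)⟩,
      fun i => (mem_filter.1 (f i).2).2⟩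
  · ext i; exact congrFun h i

lemma simul {r1 r2 r3 : V → β → Prop} {D : Finset V} {X1 X2 X3 : Finset β} {p1 p2 p3 : ℝ}
    (ht : 1 ≤ t) (q1 : 0 < p1) (q2 : 0 < p2) (q3 : 0 < p3) (h1 : Dens r1 D X1 p1)
    (h2 : Dens r2 D X2 p2) (h3 : Dens r3 D X3 p3) (n1 : X1.Nonempty) (n2 : X2.Nonempty)
    (n3 : X3.Nonempty) (hD : 4 * (t : ℝ) ^ 2 ≤ p1 * p2 * p3 * D.card) :
    ∃ C ⊆ D, C.card = t ∧
      p1 ^ t * X1.card / 6 ≤ (X1.filter (fun x => ∀ v ∈ C, r1 v x)).card ∧
      p2 ^ t * X2.card / 6 ≤ (X2.filter (fun x => ∀ v ∈ C, r2 v x)).card ∧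
      p3 ^ t * X3.card / 6 ≤ (X3.filter (fun x => ∀ v ∈ C, r3 v x)).card := by
  obtain ⟨k, rfl⟩ : ∃ k, t = k + 1 := ⟨t - 1, by omega⟩
  set S := piFinset (fun _ : Fin (k + 1) => D) with hS
  set Z := ∑ c ∈ S, nb r1 X1 c * (nb r2 X2 c * nb r3 X3 c) with hZ
  have m1 := mixed (t := k + 1) q1.le h1 (fun v (z : β × β) => r2 v z.1 ∧ r3 v z.2) (X2 ×ˢ X3)
  have m2 := mixed (t := k + 1) q2.le h2 (fun v (z : β × β) => r1 v z.1 ∧ r3 v z.2) (X1 ×ˢ X3)
  have m3 := mixed (t := k + 1) q3.le h3 (fun v (z : β × β) => r1 v z.1 ∧ r2 v z.2) (X1 ×ˢ X2)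
  simp only [nb_prod] at m1 m2 m3
  rw [← hS] at m1 m2 m3
  have e2 : ∑ c ∈ S, nb r2 X2 c * (nb r1 X1 c * nb r3 X3 c) = Z := sum_congr rfl fun c _ => by ring
  have e3 : ∑ c ∈ S, nb r3 X3 c * (nb r1 X1 c * nb r2 X2 c) = Z := sum_congr rfl fun c _ => by ring
  rw [← hZ] at m1
  rw [e2] at m2
  rw [e3] at m3
  have hd := h1.prod (by positivity) (h2.prod q3.le h3)
  set R := fun v (z : β × β × β) => r1 v z.1 ∧ (r2 v z.2.1 ∧ r3 v z.2.2) with hR
  have hnb : ∀ c : Fin (k + 1) → V,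
      nb R (X1 ×ˢ (X2 ×ˢ X3)) c = nb r1 X1 c * (nb r2 X2 c * nb r3 X3 c) := fun c => by
    rw [← nb_prod r2 r3, ← nb_prod r1]
  have z1 : Z = ∑ x ∈ X1 ×ˢ (X2 ×ˢ X3), (dg R D x : ℝ) ^ (k + 1) := by
    rw [← sum_nb]; exact sum_congr rfl fun c _ => (hnb c).symm
  set a := p1 * (p2 * p3) * D.card with ha
  have k0 : (0 : ℝ) < ((k + 1 : ℕ) : ℝ) ^ 2 := by positivity
  have ha4 : 4 * ((k + 1 : ℕ) : ℝ) ^ 2 ≤ a := by rw [ha]; linarith
  have a0 : 0 < a := by linarith
  have z2 := cheb (fun x => Nat.cast_nonneg _) a0.le (sum_dg hd) k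
  have z3 := jen (fun x => Nat.cast_nonneg _) a0.le (sum_dg hd) (k + 1)
  rw [← z1] at z2 z3
  have Z0 : 0 < Z := lt_of_lt_of_le (mul_pos (pow_pos a0 _) (by
    exact_mod_cast card_pos.2 (n1.product (n2.product n3)))) z3
  have z4 := sum_inj (t := k + 1) R (X1 ×ˢ (X2 ×ˢ X3)) D
  have z5 := sum_le_sum (s := X1 ×ˢ (X2 ×ˢ X3)) (fun x _ => desc_ge (dg R D x) k)
  rw [sum_sub_distrib, ← mul_sum, ← z1] at z5
  have z6 : 0 ≤ ∑ x ∈ X1 ×ˢ (X2 ×ˢ X3), (dg R D x : ℝ) ^ k := sum_nonneg fun x _ => by positivity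
  have z7 := mul_le_mul_of_nonneg_right ha4 z6
  simp only [hnb] at z4
  rw [← hS] at z4
  by_contra hc
  push Not at hc
  have z8 : ∑ c ∈ S.filter Function.Injective, nb r1 X1 c * (nb r2 X2 c * nb r3 X3 c)
      ≤ ∑ c ∈ S, (p1 ^ (k + 1) * X1.card / 6 * (nb r2 X2 c * nb r3 X3 c)
        + p2 ^ (k + 1) * X2.card / 6 * (nb r1 X1 c * nb r3 X3 c)
        + p3 ^ (k + 1) * X3.card / 6 * (nb r1 X1 c * nb r2 X2 c)) := by
    have nn : ∀ c : Fin (k + 1) → V, 0 ≤ p1 ^ (k + 1) * X1.card / 6 * (nb r2 X2 c * nb r3 X3 c) ∧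
        0 ≤ p2 ^ (k + 1) * X2.card / 6 * (nb r1 X1 c * nb r3 X3 c) ∧
        0 ≤ p3 ^ (k + 1) * X3.card / 6 * (nb r1 X1 c * nb r2 X2 c) := fun c => by
      have := nb_nonneg r1 X1 c
      have := nb_nonneg r2 X2 c
      have := nb_nonneg r3 X3 c
      refine ⟨by positivity, by positivity, by positivity⟩
    refine le_trans (sum_le_sum fun c hc' => ?_)
      (sum_le_sum_of_subset_of_nonneg (filter_subset _ _) fun c _ _ => by
        obtain ⟨a, b, c⟩ := nn c; linarith)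
    obtain ⟨c1, c2⟩ := mem_filter.1 hc'
    have e : ∀ (r : V → β → Prop) (X : Finset β) [DecidablePred (fun x => ∀ v ∈ univ.image c, r v x)],
        ((X.filter (fun x => ∀ v ∈ univ.image c, r v x)).card : ℝ) = nb r X c := fun r X _ => by
      unfold nb; congr 2; ext x; simp
    have := hc (univ.image c) (image_subset_iff.2 fun i _ => mem_piFinset.1 c1 i)
      (by rw [card_image_of_injective _ c2]; simp)
    rw [e, e, e] at this
    obtain ⟨a, b, d⟩ := nn c
    have u1 := nb_nonneg r1 X1 c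
    have u2 := nb_nonneg r2 X2 c
    have u3 := nb_nonneg r3 X3 c
    by_cases b1 : p1 ^ (k + 1) * X1.card / 6 ≤ nb r1 X1 c
    · by_cases b2 : p2 ^ (k + 1) * X2.card / 6 ≤ nb r2 X2 c
      · have := mul_le_mul_of_nonneg_right (this b1 b2).le (mul_nonneg u1 u2)
        linarith
      · have := mul_le_mul_of_nonneg_right (not_le.1 b2).le (mul_nonneg u1 u3)
        linarith
    · have := mul_le_mul_of_nonneg_right (not_le.1 b1).le (mul_nonneg u2 u3)
      linarith
  rw [sum_add_distrib, sum_add_distrib, ← mul_sum, ← mul_sum, ← mul_sum] at z8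
  linarith

end Pool.Agent.H.MP_fce458_co
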