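import Pool.Agent.H.MP_fce458_co.Defs
import Pool.Agent.H.MP_fce458_co.Sim

namespace Pool.Agent.H.MP_fce458_co
open Finset

open scoped Classical

variable {V : Type*} {t : ℕ}

def Mono (f : V → V → Bool) (k : Bool) (A B : Finset V) : Prop := ∀ x ∈ A, ∀ y ∈ B, f x y = k

lemma simul' {f1 f2 f3 : V → V → Bool} {k1 k2 k3 : Bool} {D X1 X2 X3 : Finset V} {p1 p2 p3 : ℝ}
    (ht : 1 ≤ t) (q1 : 0 < p1) (q2 : 0 < p2) (q3 : 0 < p3)
    (h1 : Dens (fun x y => f1 x y = k1) D X1 p1) (h2 : Dens (fun x y => f2 x y = k2) D X2 p2)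
    (h3 : Dens (fun x y => f3 x y = k3) D X3 p3) (n1 : X1.Nonempty) (n2 : X2.Nonempty)
    (n3 : X3.Nonempty) (hD : 4 * (t : ℝ) ^ 2 ≤ p1 * p2 * p3 * D.card) :
    ∃ C ⊆ D, C.card = t ∧ ∃ N1 ⊆ X1, ∃ N2 ⊆ X2, ∃ N3 ⊆ X3,
      p1 ^ t * X1.card / 6 ≤ N1.card ∧ p2 ^ t * X2.card / 6 ≤ N2.card ∧
      p3 ^ t * X3.card / 6 ≤ N3.card ∧ Mono f1 k1 C N1 ∧ Mono f2 k2 C N2 ∧ Mono f3 k3 C N3 := by
  obtain ⟨C, c1, c2, c3, c4, c5⟩ := simul ht q1 q2 q3 h1 h2 h3 n1 n2 n3 hD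
  refine ⟨C, c1, c2, _, ?_, _, ?_, _, ?_, c3, c4, c5, ?_, ?_, ?_⟩
  · intro x hx; simp only [mem_filter] at hx; exact hx.1
  · intro x hx; simp only [mem_filter] at hx; exact hx.1
  · intro x hx; simp only [mem_filter] at hx; exact hx.1
  · intro x hx y hy; simp only [mem_filter] at hy; exact hy.2 x hx
  · intro x hx y hy; simp only [mem_filter] at hy; exact hy.2 x hx
  · intro x hx y hy; simp only [mem_filter] at hy; exact hy.2 x hx

lemma Mono.sub {f : V → V → Bool} {k : Bool} {A B B' : Finset V} (h : Mono f k A B) (s : B' ⊆ B) :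
    Mono f k A B' := fun x hx y hy => h x hx y (s hy)

lemma one {f : V → V → Bool} {k : Bool} {D X : Finset V} {p : ℝ} (ht : 1 ≤ t) (q : 0 < p)
    (h : Dens (fun x y => f x y = k) D X p) (hD : 4 * (t : ℝ) ^ 2 ≤ p * p * p * D.card)
    (hX : 6 * t ≤ p ^ t * X.card) :
    ∃ A ⊆ D, ∃ B ⊆ X, A.card = t ∧ B.card = t ∧ Mono f k A B := by
  have t1 : (1 : ℝ) ≤ t := by exact_mod_cast ht
  have n : X.Nonempty := by
    rw [nonempty_iff_ne_empty]; rintro rfl; simp at hX; linarith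
  obtain ⟨A, a1, a2, N, n1, -, -, -, -, a3, -, -, a4, -⟩ := simul' ht q q q h h h n n n hD
  obtain ⟨B, b1, b2⟩ := exists_subset_card_eq (s := N) (n := t)
    (by
      have : (t : ℝ) ≤ N.card := by linarith
      exact_mod_cast this)
  exact ⟨A, a1, B, b1.trans n1, a2, b2, a4.sub b1⟩

noncomputable def cnt (f : V → V → Bool) (k : Bool) (X : Finset V) (x : V) : ℝ :=
  (X.filter (fun y => f x y = k)).card

lemma cnt_add (f : V → V → Bool) (k : Bool) (X : Finset V) (x : V) :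
    cnt f k X x + cnt f (!k) X x = X.card := by
  unfold cnt
  rw [← Nat.cast_add, ← card_filter_add_card_filter_not (s := X) (fun y => f x y = k)]
  congr 3
  ext y; cases k <;> cases f x y <;> simp

lemma dens_of {f : V → V → Bool} {k : Bool} {D X : Finset V} {p : ℝ}
    (h : ∀ x ∈ D, p * X.card ≤ cnt f k X x) : Dens (fun x y => f x y = k) D X p := fun v hv =>
  (h v hv).trans (le_of_eq (by unfold cnt; congr))

lemma bip (f : V → V → Bool) (k : Bool) {W Y : Finset V} (ht : 1 ≤ t)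
    (hW : 64 * (t : ℝ) ^ 2 ≤ W.card) (hY : 6 * t ≤ (1 / 2 : ℝ) ^ t * Y.card) :
    ∃ A ⊆ W, ∃ B ⊆ Y, A.card = t ∧ B.card = t ∧ (Mono f k A B ∨ Mono f (!k) A B) := by
  have h := card_filter_add_card_filter_not (s := W) (fun x => 1 / 2 * (Y.card : ℝ) ≤ cnt f k Y x)
  have h' := congrArg (Nat.cast (R := ℝ)) h
  rw [Nat.cast_add] at h'
  by_cases c : 32 * (t : ℝ) ^ 2 ≤ (W.filter (fun x => 1 / 2 * (Y.card : ℝ) ≤ cnt f k Y x)).card
  · obtain ⟨A, a, B, b, h1, h2, h3⟩ := one (f := f) (k := k)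
      (D := W.filter (fun x => 1 / 2 * (Y.card : ℝ) ≤ cnt f k Y x)) ht (by norm_num : (0 : ℝ) < 1 / 2)
      (dens_of fun x hx => (mem_filter.1 hx).2) (by linarith) hY
    exact ⟨A, a.trans (filter_subset _ _), B, b, h1, h2, Or.inl h3⟩
  · obtain ⟨A, a, B, b, h1, h2, h3⟩ := one (f := f) (k := !k)
      (D := W.filter (fun x => ¬ 1 / 2 * (Y.card : ℝ) ≤ cnt f k Y x)) ht
      (by norm_num : (0 : ℝ) < 1 / 2)
      (dens_of fun x hx => by
        have := cnt_add f k Y x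
        have := not_le.1 (mem_filter.1 hx).2
        linarith) (by linarith) hY
    exact ⟨A, a.trans (filter_subset _ _), B, b, h1, h2, Or.inr h3⟩

lemma tri (f g h : V → V → Bool) (k : Bool) {U1 U2 U3 : Finset V} (ht : 1 ≤ t)
    (h1 : 384 * (t : ℝ) ^ 2 * 3 ^ t ≤ U1.card) (h2 : 384 * (t : ℝ) ^ 2 * 3 ^ t ≤ U2.card)
    (h3 : 384 * (t : ℝ) ^ 2 * 3 ^ t ≤ U3.card) :
    (∃ A ⊆ U1, ∃ B ⊆ U2, A.card = t ∧ B.card = t ∧ Mono f k A B) ∨
    (∃ A ⊆ U1, ∃ B ⊆ U3, A.card = t ∧ B.card = t ∧ Mono g k A B) ∨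
    (∃ A ⊆ U2, ∃ B ⊆ U3, A.card = t ∧ B.card = t ∧ Mono h k A B) ∨
    (∃ A B C : Finset V, A.card = t ∧ B.card = t ∧ C.card = t ∧
      Mono f (!k) A B ∧ Mono g (!k) A C ∧ Mono h (!k) B C) := by
  have t1 : (1 : ℝ) ≤ t := by exact_mod_cast ht
  have t2 : (t : ℝ) ≤ t ^ 2 := by nlinarith
  have p3 : (1 : ℝ) ≤ 3 ^ t := one_le_pow₀ (by norm_num)
  have u1 : 384 * (t : ℝ) ^ 2 ≤ U1.card := by nlinarith
  have e1 : (1 : ℝ) ≤ (1 / 2) ^ t * 3 ^ t := by rw [← mul_pow]; exact one_le_pow₀ (by norm_num)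
  have e2 : (1 : ℝ) = (1 / 3) ^ t * 3 ^ t := by rw [← mul_pow]; norm_num
  have e3 : (1 : ℝ) = (1 / 2) ^ t * (2 / 3) ^ t * 3 ^ t := by rw [← mul_pow, ← mul_pow]; norm_num
  have u2 : 384 * (t : ℝ) ^ 2 ≤ (1 / 2) ^ t * U2.card := by
    have := mul_le_mul_of_nonneg_left h2 (show (0 : ℝ) ≤ (1 / 2) ^ t by positivity)
    nlinarith
  have u3 : 384 * (t : ℝ) ^ 2 ≤ (1 / 3) ^ t * U3.card := by
    have := mul_le_mul_of_nonneg_left h3 (show (0 : ℝ) ≤ (1 / 3) ^ t by positivity)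
    nlinarith
  have u4 : 384 * (t : ℝ) ^ 2 ≤ (1 / 2) ^ t * (2 / 3) ^ t * U3.card := by
    have := mul_le_mul_of_nonneg_left h3 (show (0 : ℝ) ≤ (1 / 2) ^ t * (2 / 3) ^ t by positivity)
    nlinarith
  set D1 := U1.filter (fun x => 1 / 2 * (U2.card : ℝ) ≤ cnt f k U2 x) with hD1
  set D2 := U1.filter (fun x => 1 / 3 * (U3.card : ℝ) ≤ cnt g k U3 x) with hD2
  set D3 := U1.filter (fun x => 1 / 2 * (U2.card : ℝ) ≤ cnt f (!k) U2 x ∧
    2 / 3 * (U3.card : ℝ) ≤ cnt g (!k) U3 x) with hD3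
  have hs : U1 ⊆ D1 ∪ D2 ∪ D3 := by
    intro x hx
    simp only [mem_union, hD1, hD2, hD3, mem_filter, hx, true_and]
    have := cnt_add f k U2 x
    have := cnt_add g k U3 x
    by_cases a : 1 / 2 * (U2.card : ℝ) ≤ cnt f k U2 x
    · exact Or.inl (Or.inl a)
    by_cases b : 1 / 3 * (U3.card : ℝ) ≤ cnt g k U3 x
    · exact Or.inl (Or.inr b)
    exact Or.inr ⟨by linarith, by linarith⟩
  have hc : U1.card ≤ D1.card + D2.card + D3.card :=
    (card_le_card hs).trans ((card_union_le _ _).trans (Nat.add_le_add_right (card_union_le _ _) _))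
  have hc' : (U1.card : ℝ) ≤ D1.card + D2.card + D3.card := by exact_mod_cast hc
  by_cases a : 128 * (t : ℝ) ^ 2 ≤ D1.card
  · obtain ⟨A, a, B, b, h⟩ := one (f := f) (k := k) (D := D1) ht (by norm_num : (0 : ℝ) < 1 / 2)
      (dens_of fun x hx => (mem_filter.1 hx).2) (by linarith) (by linarith)
    exact Or.inl ⟨A, a.trans (filter_subset _ _), B, b, h⟩
  by_cases b : 128 * (t : ℝ) ^ 2 ≤ D2.card
  · obtain ⟨A, a, B, b, h⟩ := one (f := g) (k := k) (D := D2) ht (by norm_num : (0 : ℝ) < 1 / 3)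
      (dens_of fun x hx => (mem_filter.1 hx).2) (by linarith) (by linarith)
    exact Or.inr (Or.inl ⟨A, a.trans (filter_subset _ _), B, b, h⟩)
  have n2 : U2.Nonempty := by
    rw [nonempty_iff_ne_empty]; rintro rfl; simp at u2; nlinarith
  have n3 : U3.Nonempty := by
    rw [nonempty_iff_ne_empty]; rintro rfl; simp at u3; nlinarith
  have d2 : Dens (fun x y => f x y = !k) D3 U2 (1 / 2) := dens_of fun x hx => (mem_filter.1 hx).2.1
  have d3 : Dens (fun x y => g x y = !k) D3 U3 (2 / 3) := dens_of fun x hx => (mem_filter.1 hx).2.2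
  obtain ⟨A, -, a2, N2, m2, N3, m3, -, -, a3, a4, -, a5, a6, -⟩ := simul' ht (by norm_num)
    (by norm_num) (by norm_num) d2 d3 d3 n2 n3 n3 (by linarith)
  obtain ⟨B, b1, C, c1, b2, c2, m⟩ := bip h k ht (le_trans (by linarith) a3) (le_trans (by linarith)
    (mul_le_mul_of_nonneg_left a4 (show (0 : ℝ) ≤ (1 / 2) ^ t by positivity)))
  rcases m with m | m
  · exact Or.inr (Or.inr (Or.inl ⟨B, b1.trans m2, C, c1.trans m3, b2, c2, m⟩))
  · exact Or.inr (Or.inr (Or.inr ⟨A, B, C, a2, b2, c2, a5.sub b1, a6.sub c1, m⟩))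

lemma three : ∀ π : Fin 6 → Bool, ∃ a b c : Fin 6, 0 ≠ a ∧ 0 ≠ b ∧ 0 ≠ c ∧ a ≠ b ∧ a ≠ c ∧ b ≠ c ∧
    π b = π a ∧ π c = π a := by decide +kernel

theorem main (t n : ℕ) (ht : 1 ≤ t) (hn : 2304 * t ^ 2 * 6 ^ t ≤ n) : Arrows n t := by
  intro col
  let κ : Fin 6 → Fin 6 → Fin n → Fin n → Bool := fun a b x y =>
    if h : a ≠ b then col ⟨s((a, x), (b, y)), h⟩ else true
  have hκ : ∀ {a b k A B} (h : a ≠ b), Mono (κ a b) k A B → MonoPair col k a b h A B :=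
    fun h m x hx y hy => by have := m x hx y hy; simpa [κ, h] using this
  have hn' : 2304 * (t : ℝ) ^ 2 * 6 ^ t ≤ n := by exact_mod_cast hn
  have t1 : (1 : ℝ) ≤ t := by exact_mod_cast ht
  have p6 : (1 : ℝ) ≤ 6 ^ t := one_le_pow₀ (by norm_num)
  let π : Fin n → Fin 6 → Bool := fun x j => decide (1 / 2 * (n : ℝ) ≤ cnt (κ 0 j) true univ x)
  obtain ⟨σ, -, hσ⟩ := exists_le_card_fiber_of_nsmul_le_card_of_maps_to (M := ℝ)
    (s := univ) (t := univ) (f := π) (b := 32 * (t : ℝ) ^ 2) (fun _ _ => mem_univ _) univ_nonempty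
    (by
      simp only [card_univ, Fintype.card_fun, Fintype.card_bool, Fintype.card_fin, nsmul_eq_mul]
      push_cast; nlinarith)
  obtain ⟨a, b, c, a0, b0, c0, ab, ac, bc, e1, e2⟩ := three σ
  set D := univ.filter (fun x => π x = σ) with hD
  have hd : ∀ j, Dens (fun x y => κ 0 j x y = σ j) D univ (1 / 2) := fun j => dens_of fun x hx => by
    have h := congrFun (mem_filter.1 hx).2 j
    have h2 := cnt_add (κ 0 j) true univ x
    simp only [card_univ, Fintype.card_fin] at h2 ⊢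
    cases hs : σ j
    · rw [hs] at h
      have := not_le.1 (of_decide_eq_false h)
      simp only [Bool.not_true] at h2; linarith
    · rw [hs] at h; exact of_decide_eq_true h
  have ne : (univ : Finset (Fin n)).Nonempty := by
    rw [← card_pos, card_univ, Fintype.card_fin]
    have : (0 : ℝ) < n := by nlinarith
    exact_mod_cast this
  obtain ⟨A0, -, s1, N1, -, N2, -, N3, -, s2, s3, s4, w1, w2, w3⟩ := simul' ht (by norm_num)
    (by norm_num) (by norm_num) (hd a) (hd b) (hd c) ne ne ne (by linarith)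
  have key : 384 * (t : ℝ) ^ 2 * 3 ^ t ≤ (1 / 2) ^ t * (univ : Finset (Fin n)).card / 6 := by
    rw [card_univ, Fintype.card_fin]
    have := mul_le_mul_of_nonneg_left hn' (show (0 : ℝ) ≤ (1 / 2) ^ t by positivity)
    have e : (3 : ℝ) ^ t = (1 / 2) ^ t * 6 ^ t := by rw [← mul_pow]; norm_num
    rw [e]; linarith
  rcases tri (κ a b) (κ a c) (κ b c) (σ a) ht (key.trans s2) (key.trans s3) (key.trans s4) with
    ⟨A, a1, B, b1, h1, h2, m⟩ | ⟨A, a1, B, b1, h1, h2, m⟩ | ⟨A, a1, B, b1, h1, h2, m⟩ |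
    ⟨A, B, C, h1, h2, h3, m1, m2, m3⟩
  · exact ⟨0, a, b, a0, b0, ab, A0, A, B, σ a, s1, h1, h2,
      hκ a0 (w1.sub a1),
      hκ b0 (e1 ▸ w2.sub b1), hκ ab m⟩
  · exact ⟨0, a, c, a0, c0, ac, A0, A, B, σ a, s1, h1, h2,
      hκ a0 (w1.sub a1),
      hκ c0 (e2 ▸ w3.sub b1), hκ ac m⟩
  · exact ⟨0, b, c, b0, c0, bc, A0, A, B, σ a, s1, h1, h2,
      hκ b0 (e1 ▸ w2.sub a1),
      hκ c0 (e2 ▸ w3.sub b1), hκ bc m⟩
  · exact ⟨a, b, c, ab, ac, bc, A, B, C, !σ a, h1, h2, h3, hκ ab m1, hκ ac m2, hκ bc m3⟩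

end Pool.Agent.H.MP_fce458_co
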